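import Mathlib

set_option autoImplicit false

open MeasureTheory

namespace Pool.Agent.Results.MP_db83b6_pr.SpindleNotPSD

/-- The index set `E_n` of pairs `i < j` of elements of `Fin n`. -/
abbrev Pair (n : ℕ) : Type := {e : Fin n × Fin n // e.1 < e.2}

/-- The polytope of tail correlation functions on `n` points. -/
def TCF (n : ℕ) : Set (Pair n → ℝ) :=
  {χ | ∃ (Ω : Type) (_ : MeasurableSpace Ω) (P : Measure Ω) (A : Fin n → Set Ω),
    IsProbabilityMeasure P ∧ (∀ i, MeasurableSet (A i)) ∧ (∀ i, P.real (A i) = 1 / (n : ℝ)) ∧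
      ∀ e : Pair n, χ e = (n : ℝ) * P.real (A e.1.1 ∩ A e.1.2)}

/-- The vertex `v_0 = (0, …, 0)`. -/
def v0 (n : ℕ) : Pair n → ℝ := fun _ => 0

/-- The vertex `v_1 = (1, …, 1)`. -/
def v1 (n : ℕ) : Pair n → ℝ := fun _ => 1

/-- The part of `TCF n` on the hyperplane `∑ e, c e * x e = β`. -/
def face (n : ℕ) (c : Pair n → ℝ) (β : ℝ) : Set (Pair n → ℝ) :=
  {x | x ∈ TCF n ∧ ∑ e, c e * x e = β}

/-- `∑ e, c e * x e ≤ β` is a facet-defining inequality of `TCF n`: it is valid on `TCF n`, and the
set of points of `TCF n` where it is tight is nonempty, of dimension one less than `TCF n`. -/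
structure FacetDefining (n : ℕ) (c : Pair n → ℝ) (β : ℝ) : Prop where
  valid : ∀ x ∈ TCF n, ∑ e, c e * x e ≤ β
  nonempty : (face n c β).Nonempty
  codim_one : Module.finrank ℝ (vectorSpan ℝ (face n c β)) + 1 =
    Module.finrank ℝ (vectorSpan ℝ (TCF n))

/-- `TCF_n(v_0, v_1)`: the polytope cut out by the facet-defining inequalities of `TCF n` for all
facets that contain `v_0` or `v_1`. -/
def Spindle (n : ℕ) : Set (Pair n → ℝ) :=
  {x | ∀ (c : Pair n → ℝ) (β : ℝ), FacetDefining n c β →
    (v0 n ∈ face n c β ∨ v1 n ∈ face n c β) → ∑ e, c e * x e ≤ β}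

/-- The symmetric matrix `X(x)` with unit diagonal and off-diagonal entries `x_{ij}`. -/
def X {n : ℕ} (x : Pair n → ℝ) : Matrix (Fin n) (Fin n) ℝ := fun i j =>
  if h : i < j then x ⟨(i, j), h⟩ else if h : j < i then x ⟨(j, i), h⟩ else 1

/-- `PSD_n`. -/
def PSD (n : ℕ) : Set (Pair n → ℝ) := {x | (X x).PosSemidef}

/-- partition points -/
lemma part_mem (n : ℕ) (hn : 0 < n) (f : Fin n → Fin n) :
    (fun e : Pair n => if f e.1.1 = f e.1.2 then (1 : ℝ) else 0) ∈ TCF n := by
  classical
  have : Nonempty (Fin n) := ⟨⟨0, hn⟩⟩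
  have hn' : (n : ℝ) ≠ 0 := by positivity
  refine ⟨Fin n, inferInstance, (PMF.uniformOfFintype (Fin n)).toMeasure, fun i => {f i},
    inferInstance, fun i => MeasurableSet.singleton _, ?_, ?_⟩
  · intro i
    rw [Measure.real, PMF.toMeasure_apply_singleton _ _ (MeasurableSet.singleton _)]
    simp
  · intro e
    by_cases h : f e.1.1 = f e.1.2
    · simp only [h, if_true, Set.inter_self]
      rw [Measure.real, PMF.toMeasure_apply_singleton _ _ (MeasurableSet.singleton _)]
      simp [hn']
    · have : ({f e.1.1} : Set (Fin n)) ∩ {f e.1.2} = ∅ := by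
        ext x; simp only [Set.mem_inter_iff, Set.mem_singleton_iff, Set.mem_empty_iff_false,
          iff_false]
        rintro ⟨h1, h2⟩; exact h (h1 ▸ h2)
      simp [h, this]

/-- the star point -/
noncomputable def star (n : ℕ) (l : Fin n) : Pair n → ℝ := fun e => if e.1.2 = l then 1 / 2 else 0

lemma star_tight0 (n : ℕ) (hn : 0 < n) (l : Fin n) (c : Pair n → ℝ) (β : ℝ)
    (hv : ∀ x ∈ TCF n, ∑ e, c e * x e ≤ β) (h0 : v0 n ∈ face n c β) :
    ∑ e, c e * star n l e ≤ β := by
  classical
  have hβ : β = 0 := by
    have := h0.2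
    simpa [v0] using this.symm
  have hc : ∀ e, c e ≤ 0 := by
    intro e0
    have h1 := hv _ (part_mem n hn (Function.update id e0.1.2 e0.1.1))
    rw [hβ] at h1
    refine le_trans (le_of_eq ?_) h1
    rw [Finset.sum_eq_single e0]
    · have hne : e0.1.1 ≠ e0.1.2 := ne_of_lt e0.2
      simp [Function.update_of_ne hne]
    · intro e _ hne
      have hlt := e.2
      have hlt0 := e0.2
      have : ¬ (Function.update id e0.1.2 e0.1.1 e.1.1 = Function.update id e0.1.2 e0.1.1 e.1.2) := by
        intro heq
        by_cases ha : e.1.1 = e0.1.2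
        · by_cases hb : e.1.2 = e0.1.2
          · rw [ha, hb] at hlt; exact lt_irrefl _ hlt
          · rw [ha, Function.update_self, Function.update_of_ne hb] at heq
            simp only [id] at heq
            rw [ha, ← heq] at hlt
            exact lt_asymm hlt hlt0
        · by_cases hb : e.1.2 = e0.1.2
          · rw [hb, Function.update_self, Function.update_of_ne ha] at heq
            simp only [id] at heq
            apply hne
            ext
            · rw [heq]
            · rw [hb]
          · rw [Function.update_of_ne ha, Function.update_of_ne hb] at heq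
            simp only [id] at heq
            exact absurd heq (ne_of_lt hlt)
      rw [if_neg this, mul_zero]
    · intro h; exact absurd (Finset.mem_univ _) h
  rw [hβ]
  apply Finset.sum_nonpos
  intro e _
  apply mul_nonpos_of_nonpos_of_nonneg (hc e)
  unfold star
  split_ifs <;> norm_num

lemma star_tight1 (n : ℕ) (hn : 0 < n) (l : Fin n) (hl : ∀ i, i ≤ l) (c : Pair n → ℝ) (β : ℝ)
    (hv : ∀ x ∈ TCF n, ∑ e, c e * x e ≤ β) (h1 : v1 n ∈ face n c β) :
    ∑ e, c e * star n l e ≤ β := by
  classical
  have hβ : ∑ e, c e = β := by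
    have := h1.2
    simpa [v1] using this
  have hk : ∀ k ∈ Finset.univ.erase l,
      0 ≤ ∑ e : Pair n, c e * ((if e.1.1 = k then 1 else 0) + (if e.1.2 = k then 1 else 0)) := by
    intro k hk
    have hkl : k ≠ l := Finset.ne_of_mem_erase hk
    have h2 := hv _ (part_mem n hn (fun a => if a = k then k else l))
    rw [← hβ, ← sub_nonneg, ← Finset.sum_sub_distrib] at h2
    refine le_trans h2 (le_of_eq ?_)
    apply Finset.sum_congr rfl
    intro e _
    have hlt := e.2
    by_cases ha : e.1.1 = k
    · have hb : ¬ e.1.2 = k := by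
        intro hb; rw [ha, hb] at hlt; exact lt_irrefl _ hlt
      simp [ha, hb, hkl]
    · by_cases hb : e.1.2 = k
      · simp [ha, hb, Ne.symm hkl]
      · simp [ha, hb]
  have hsum := Finset.sum_nonneg hk
  rw [Finset.sum_comm] at hsum
  have hcalc : ∀ e : Pair n, ∑ k ∈ Finset.univ.erase l,
      c e * ((if e.1.1 = k then 1 else 0) + (if e.1.2 = k then (1 : ℝ) else 0)) =
      2 * (c e - c e * star n l e) := by
    intro e
    have hlt := e.2
    have ha : e.1.1 ≠ l := ne_of_lt (lt_of_lt_of_le hlt (hl _))
    rw [← Finset.mul_sum, Finset.sum_add_distrib, Finset.sum_ite_eq, Finset.sum_ite_eq]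
    unfold star
    by_cases hb : e.1.2 = l
    · simp [ha, hb]; ring
    · simp [ha, hb]; ring
  rw [Finset.sum_congr rfl (fun e _ => hcalc e), ← Finset.mul_sum, Finset.sum_sub_distrib, hβ]
    at hsum
  linarith

lemma star_mem (n : ℕ) (hn : 0 < n) (l : Fin n) (hl : ∀ i, i ≤ l) : star n l ∈ Spindle n := by
  intro c β hf hv
  rcases hv with h | h
  · exact star_tight0 n hn l c β hf.valid h
  · exact star_tight1 n hn l hl c β hf.valid h

lemma star_not_psd (n : ℕ) (hn : 6 ≤ n) (l : Fin n) (hl : ∀ i, i ≤ l) : star n l ∉ PSD n := by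
  classical
  intro h
  have h' : (X (star n l)).PosSemidef := h
  have h2 := h'.dotProduct_mulVec_nonneg (fun i => if i = l then (-2 : ℝ) else 1)
  have hX : ∀ i j, X (star n l) i j = (if i = j then (1 : ℝ) else 0) + (if i = l then 1 / 2 else 0)
      + (if j = l then 1 / 2 else 0) - (if i = l then (if j = l then 1 else 0) else 0) := by
    intro i j
    unfold X star
    rcases lt_trichotomy i j with hij | hij | hij
    · have hi : i ≠ l := ne_of_lt (lt_of_lt_of_le hij (hl _))
      simp [hij, hi, ne_of_lt hij]
    · subst hij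
      by_cases hi : i = l
      · simp [hi]; norm_num
      · simp [hi]
    · have hj : j ≠ l := ne_of_lt (lt_of_lt_of_le hij (hl _))
      simp [hij, not_lt_of_gt hij, hj, (ne_of_lt hij).symm]
  have ha : ∀ i : Fin n, (if i = l then (-2 : ℝ) else 1) = 1 - 3 * (if i = l then 1 else 0) := by
    intro i; split_ifs <;> norm_num
  simp only [dotProduct, Matrix.mulVec, Pi.star_apply, star_trivial, hX] at h2
  have key : ∑ i : Fin n, (if i = l then (-2 : ℝ) else 1) *
      ∑ j : Fin n, ((if i = j then (1 : ℝ) else 0) + (if i = l then 1 / 2 else 0)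
      + (if j = l then 1 / 2 else 0) - (if i = l then (if j = l then 1 else 0) else 0)) *
      (if j = l then (-2 : ℝ) else 1) = 5 - n := by
    have inner : ∀ i : Fin n, ∑ j : Fin n, ((if i = j then (1 : ℝ) else 0)
        + (if i = l then 1 / 2 else 0)
        + (if j = l then 1 / 2 else 0) - (if i = l then (if j = l then 1 else 0) else 0)) *
        (if j = l then (-2 : ℝ) else 1) = (if i = l then (-2 : ℝ) else 1) +
          (if i = l then 1 / 2 else 0) * (n - 3) - 1 + (if i = l then 2 else 0) := by
      intro i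
      have : ∀ j : Fin n, ((if i = j then (1 : ℝ) else 0)
        + (if i = l then 1 / 2 else 0)
        + (if j = l then 1 / 2 else 0) - (if i = l then (if j = l then 1 else 0) else 0)) *
        (if j = l then (-2 : ℝ) else 1) = (if i = j then (if i = l then (-2 : ℝ) else 1) else 0)
          + (if i = l then 1 / 2 else 0) * (1 - 3 * (if j = l then 1 else 0))
          + (if j = l then (-1 + (if i = l then 2 else 0)) else 0) := by
        intro j
        by_cases hij : i = j
        · subst hij; split_ifs <;> norm_num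
        · simp only [hij, if_false]
          split_ifs <;> norm_num
      rw [Finset.sum_congr rfl (fun j _ => this j), Finset.sum_add_distrib, Finset.sum_add_distrib,
        ← Finset.mul_sum, Finset.sum_sub_distrib, ← Finset.mul_sum]
      simp
      ring
    rw [Finset.sum_congr rfl (fun i _ => by rw [inner i])]
    have : ∀ i : Fin n, (if i = l then (-2 : ℝ) else 1) * ((if i = l then (-2 : ℝ) else 1) +
          (if i = l then 1 / 2 else 0) * (n - 3) - 1 + (if i = l then 2 else 0)) =
          (if i = l then 5 - (n : ℝ) else 0) := by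
      intro i
      split_ifs
      · ring
      · ring
    rw [Finset.sum_congr rfl (fun i _ => this i)]
    simp
  rw [key] at h2
  have : (6 : ℝ) ≤ n := by exact_mod_cast hn
  linarith

/-- For every `n ≥ 6` the polytope `TCF_n(v_0, v_1)` is not contained in `PSD_n`. -/
theorem result : ∀ n : ℕ, 6 ≤ n → ¬ (Spindle n ⊆ PSD n) := by
  intro n hn hsub
  have hn0 : 0 < n := by omega
  let l : Fin n := ⟨n - 1, by omega⟩
  have hl : ∀ i : Fin n, i ≤ l := by
    intro i
    have := i.2
    rw [Fin.le_def]
    change i.val ≤ n - 1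
    omega
  exact star_not_psd n hn l hl (hsub (star_mem n hn0 l hl))

end Pool.Agent.Results.MP_db83b6_pr.SpindleNotPSD
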